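import Pool.Agent.Helper27.BG.St2

/-!
# Project BG, module CL2: sums of squares of marginals
-/

set_option autoImplicit false

noncomputable section

namespace Pool.Agent.Helper27.BG

open Finset MeasureTheory
open Pool.Agent.Helper90.MT (DD piDD SW)

theorem cl2_SS_nonneg (W M : ℕ) : 0 ≤ SS W M := by
  unfold SS
  refine mul_nonneg (by positivity) ?_
  unfold RR
  rcases Nat.eq_zero_or_pos M with h | h
  · subst h
    rw [Nat.cast_zero, Real.zero_rpow (by norm_num), Real.log_zero]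
  · exact Real.log_nonneg (Real.one_le_rpow (by exact_mod_cast h) (by norm_num))

theorem cl2_logRR_nonneg (M : ℕ) : 0 ≤ Real.log (RR M) := by
  unfold RR
  rcases Nat.eq_zero_or_pos M with h | h
  · subst h
    rw [Nat.cast_zero, Real.zero_rpow (by norm_num), Real.log_zero]
  · exact Real.log_nonneg (Real.one_le_rpow (by exact_mod_cast h) (by norm_num))

theorem cl2_ud_nonneg (M d : ℕ) : 0 ≤ ud M d :=
  div_nonneg (Real.log_natCast_nonneg d) (cl2_logRR_nonneg M)

theorem cl2_ud_one (M : ℕ) : ud M 1 = 0 := by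
  unfold ud
  rw [Nat.cast_one, Real.log_one, zero_div]

theorem cl2_one_mem {α : Type} [Fintype α] (pr : α → ℕ) : 1 ∈ DD pr := by
  classical
  unfold DD
  rw [Finset.mem_image]
  exact ⟨∅, Finset.empty_mem_powerset _, Finset.prod_empty⟩

section cells

variable {ι : Type} [Fintype ι] [DecidableEq ι]

/-- the cell of a point -/
def cl2P (m : ι) (u : Option ι → ℝ) : (ι → ℕ) × ℕ × ℕ × ℕ × ℕ :=
  (fun h => ⌊1000 * u (some h)⌋₊, ⌊1000 * u none⌋₊, ⌊1000 * ∑ h ∈ univ.erase m, u (some h)⌋₊,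
    ⌊1000 * ∑ h, u (some h)⌋₊, ⌊1000 * (∑ h ∈ univ.erase m, u (some h) + u none)⌋₊)

/-- the cell with a given index -/
def cl2C (m : ι) (p : (ι → ℕ) × ℕ × ℕ × ℕ × ℕ) : Set (Option ι → ℝ) :=
  cs2 m p.1 p.2.1 p.2.2.1 p.2.2.2.1 p.2.2.2.2

theorem cl2_mem (m : ι) (p : (ι → ℕ) × ℕ × ℕ × ℕ × ℕ) (u : Option ι → ℝ) (hu : ∀ o, 0 ≤ u o) :
    u ∈ cl2C m p ↔ cl2P m u = p := by
  obtain ⟨i, i', t0, t1, t2⟩ := p
  unfold cl2C cs2 cl2P
  simp only [Set.mem_setOf_eq, Prod.mk.injEq]
  constructor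
  · rintro ⟨-, h1, h2, h3, h4, h5⟩
    exact ⟨funext h1, h2, h3, h4, h5⟩
  · rintro ⟨h1, h2, h3, h4, h5⟩
    exact ⟨hu, fun h => congrFun h1 h, h2, h3, h4, h5⟩

theorem cl2_meas (m : ι) (p : (ι → ℕ) × ℕ × ℕ × ℕ × ℕ) : MeasurableSet (cl2C m p) := by
  obtain ⟨i, i', t0, t1, t2⟩ := p
  have h1 : MeasurableSet {u : Option ι → ℝ | ∀ h, 0 ≤ u h} := by
    rw [Set.setOf_forall]
    exact MeasurableSet.iInter fun h => measurableSet_le measurable_const (measurable_pi_apply h)
  have hfl : ∀ (g : (Option ι → ℝ) → ℝ) (n : ℕ), Measurable g →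
      MeasurableSet {u : Option ι → ℝ | ⌊1000 * g u⌋₊ = n} := by
    intro g n hg
    exact ((hg.const_mul 1000).nat_floor) (measurableSet_singleton n)
  have h2 : MeasurableSet {u : Option ι → ℝ | ∀ h : ι, ⌊1000 * u (some h)⌋₊ = i h} := by
    rw [Set.setOf_forall]
    exact MeasurableSet.iInter fun h => hfl (fun u => u (some h)) (i h)
      (measurable_pi_apply _)
  have h3 := hfl (fun u => u none) i' (measurable_pi_apply _)
  have hs : ∀ F : Finset ι, Measurable fun u : Option ι → ℝ => ∑ h ∈ F, u (some h) := fun F =>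
    Finset.measurable_sum F fun h _ => measurable_pi_apply (some h)
  have h4 := hfl (fun u => ∑ h ∈ univ.erase m, u (some h)) t0 (hs _)
  have h5 := hfl (fun u => ∑ h, u (some h)) t1 (hs _)
  have h6 := hfl (fun u => ∑ h ∈ univ.erase m, u (some h) + u none) t2
    ((hs _).add (measurable_pi_apply _))
  exact h1.inter (h2.inter (h3.inter (h4.inter (h5.inter h6))))

theorem cl2_ord (m : ι) (p : (ι → ℕ) × ℕ × ℕ × ℕ × ℕ) : (cl2C m p).OrdConnected := by
  obtain ⟨i, i', t0, t1, t2⟩ := p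
  refine ⟨fun u hu v hv w hw => ?_⟩
  obtain ⟨a1, a2, a3, a4, a5, a6⟩ := hu
  obtain ⟨-, b2, b3, b4, b5, b6⟩ := hv
  have key : ∀ (x y z : ℝ) (n : ℕ), x ≤ y → y ≤ z → ⌊1000 * x⌋₊ = n → ⌊1000 * z⌋₊ = n →
      ⌊1000 * y⌋₊ = n := by
    intro x y z n h1 h2 h3 h4
    apply le_antisymm
    · rw [← h4]
      exact Nat.floor_mono (by linarith)
    · rw [← h3]
      exact Nat.floor_mono (by linarith)
  have hs1 : ∀ F : Finset ι, ∑ h ∈ F, u (some h) ≤ ∑ h ∈ F, w (some h) := fun F =>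
    Finset.sum_le_sum fun h _ => hw.1 _
  have hs2 : ∀ F : Finset ι, ∑ h ∈ F, w (some h) ≤ ∑ h ∈ F, v (some h) := fun F =>
    Finset.sum_le_sum fun h _ => hw.2 _
  refine ⟨fun h => (a1 h).trans (hw.1 h), fun h => key _ _ _ _ (hw.1 _) (hw.2 _) (a2 h) (b2 h),
    key _ _ _ _ (hw.1 _) (hw.2 _) a3 b3, key _ _ _ _ (hs1 _) (hs2 _) a4 b4,
    key _ _ _ _ (hs1 _) (hs2 _) a5 b5,
    key _ _ _ _ (add_le_add (hs1 _) (hw.1 _)) (add_le_add (hs2 _) (hw.2 _)) a6 b6⟩

theorem cl2_section (m : ι) (p : (ι → ℕ) × ℕ × ℕ × ℕ × ℕ) (h : Option ι) (x : Option ι → ℝ) :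
    {s : ℝ | Function.update x h s ∈ cl2C m p}.OrdConnected := by
  have hmono : Monotone fun s : ℝ => Function.update x h s := by
    intro s s' hss o
    by_cases ho : o = h
    · subst ho
      simp only [Function.update_self]
      exact hss
    · simp only [Function.update_of_ne ho]
      exact le_rfl
  exact (cl2_ord m p).preimage_mono hmono

theorem cl2_sub (m : ι) (p : (ι → ℕ) × ℕ × ℕ × ℕ × ℕ) (T : ℕ) (hT : T ≤ 2000)
    (h1 : ∀ h, p.1 h < T) (h2 : p.2.1 < T) (u : Option ι → ℝ) (hu : u ∈ cl2C m p) (o : Option ι) :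
    u o ∈ Set.Ico (0 : ℝ) 2 := by
  obtain ⟨i, i', t0, t1, t2⟩ := p
  obtain ⟨a1, a2, a3, -, -, -⟩ := hu
  refine ⟨a1 o, ?_⟩
  have key : ∀ (x : ℝ) (n : ℕ), ⌊1000 * x⌋₊ = n → n < T → x < 2 := by
    intro x n hx hn
    have h3 := Nat.lt_floor_add_one (1000 * x)
    rw [hx] at h3
    have h4 : (n : ℝ) + 1 ≤ 2000 := by
      have : n + 1 ≤ 2000 := by omega
      exact_mod_cast this
    linarith
  cases o with
  | none => exact key _ _ a3 h2
  | some h => exact key _ _ (a2 h) (h1 h)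

end cells

section algebra

variable {ι : Type} [Fintype ι] [DecidableEq ι]

/-- the coefficient of a cell -/
def cl2K (m : ι) (Γ : (ι → ℕ) → ℕ → ℝ) (φ : ℕ → ℝ) (p : (ι → ℕ) × ℕ × ℕ × ℕ × ℕ) : ℝ :=
  φ p.2.2.1 * Γ p.1 p.2.2.2.1 * Γ (Function.update p.1 m p.2.1) p.2.2.2.2

/-- the set of the indices of the cells -/
def cl2I (ι : Type) [Fintype ι] [DecidableEq ι] (T : ℕ) : Finset ((ι → ℕ) × ℕ × ℕ × ℕ × ℕ) :=
  Fintype.piFinset (fun _ : ι => range T) ×ˢ (range T ×ˢ (range T ×ˢ (range T ×ˢ range T)))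

/-- decomposition into cells -/
theorem cl2_decomp (m : ι) (Γ : (ι → ℕ) → ℕ → ℝ) (φ : ℕ → ℝ) (T : ℕ)
    (hΓ : ∀ i t, Γ i t ≠ 0 → (∀ h, i h < T) ∧ t < T) (u : Option ι → ℝ) (hu : ∀ o, 0 ≤ u o) :
    (open Classical in
    ∑ p ∈ cl2I ι T, cl2K m Γ φ p * (if u ∈ cl2C m p then (1 : ℝ) else 0)) =
      cl2K m Γ φ (cl2P m u) := by
  classical
  have h1 : ∀ p ∈ cl2I ι T, cl2K m Γ φ p * (if u ∈ cl2C m p then (1 : ℝ) else 0) =
      if cl2P m u = p then cl2K m Γ φ p else 0 := by
    intro p _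
    by_cases h : cl2P m u = p
    · rw [if_pos h, if_pos ((cl2_mem m p u hu).2 h), mul_one]
    · rw [if_neg h, if_neg (fun h' => h ((cl2_mem m p u hu).1 h')), mul_zero]
  rw [Finset.sum_congr rfl h1, Finset.sum_ite_eq]
  by_cases h : cl2P m u ∈ cl2I ι T
  · rw [if_pos h]
  · rw [if_neg h]
    by_contra hne
    apply h
    have h2 : cl2K m Γ φ (cl2P m u) ≠ 0 := fun h' => hne h'.symm
    unfold cl2K at h2
    have h3 : Γ (cl2P m u).1 (cl2P m u).2.2.2.1 ≠ 0 := by
      intro h'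
      apply h2
      rw [h', mul_zero, zero_mul]
    have h4 : Γ (Function.update (cl2P m u).1 m (cl2P m u).2.1) (cl2P m u).2.2.2.2 ≠ 0 := by
      intro h'
      apply h2
      rw [h', mul_zero]
    obtain ⟨a1, a2⟩ := hΓ _ _ h3
    obtain ⟨b1, b2⟩ := hΓ _ _ h4
    have b3 := b1 m
    rw [Function.update_self] at b3
    have h5 : (cl2P m u).2.2.1 ≤ (cl2P m u).2.2.2.1 := by
      show ⌊1000 * ∑ h ∈ univ.erase m, u (some h)⌋₊ ≤ ⌊1000 * ∑ h, u (some h)⌋₊
      apply Nat.floor_mono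
      have h6 : ∑ h ∈ univ.erase m, u (some h) ≤ ∑ h, u (some h) :=
        Finset.sum_le_sum_of_subset_of_nonneg (Finset.erase_subset _ _) fun h _ _ => hu _
      linarith
    unfold cl2I
    simp only [Finset.mem_product, Fintype.mem_piFinset, Finset.mem_range]
    exact ⟨a1, b3, lt_of_le_of_lt h5 a2, a2, b2⟩

/-- the value on tuples -/
theorem cl2_value (m : ι) (Γ : (ι → ℕ) → ℕ → ℝ) (φ : ℕ → ℝ) (M : ℕ) (x : ι → ℕ) (hx : x m = 1)
    (c c' : ℕ) :
    cl2K m Γ φ (cl2P m (fun o : Option ι => ud M (o.elim c' (Function.update x m c)))) =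
      φ (totN M x) * Γ (fun h => cellN M (Function.update x m c h))
        (totN M (Function.update x m c)) * Γ (fun h => cellN M (Function.update x m c' h))
        (totN M (Function.update x m c')) := by
  have hsum : ∀ d : ℕ, ∑ h, ud M (Function.update x m d h) =
      ∑ h ∈ univ.erase m, ud M (x h) + ud M d := by
    intro d
    rw [← Finset.sum_erase_add univ _ (mem_univ m), Function.update_self]
    congr 1
    refine Finset.sum_congr rfl fun h hh => ?_
    rw [Function.update_of_ne (Finset.ne_of_mem_erase hh)]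
  have her : ∑ h ∈ univ.erase m, ud M (Function.update x m c h) =
      ∑ h ∈ univ.erase m, ud M (x h) :=
    Finset.sum_congr rfl fun h hh => by
      rw [Function.update_of_ne (Finset.ne_of_mem_erase hh)]
  have e0 : totN M x = ⌊1000 * ∑ h ∈ univ.erase m, ud M (Function.update x m c h)⌋₊ := by
    unfold totN
    rw [her]
    have := hsum (x m)
    rw [Function.update_eq_self, hx, cl2_ud_one, add_zero] at this
    rw [this]
  have e1 : totN M (Function.update x m c) = ⌊1000 * ∑ h, ud M (Function.update x m c h)⌋₊ := rfl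
  have e2 : totN M (Function.update x m c') =
      ⌊1000 * (∑ h ∈ univ.erase m, ud M (Function.update x m c h) + ud M c')⌋₊ := by
    unfold totN
    rw [her, hsum]
  have e3 : (fun h => cellN M (Function.update x m c' h)) =
      Function.update (fun h => cellN M (Function.update x m c h)) m (cellN M c') := by
    funext h
    by_cases hh : h = m
    · subst hh
      rw [Function.update_self, Function.update_self]
    · rw [Function.update_of_ne hh, Function.update_of_ne hh, Function.update_of_ne hh]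
  unfold cl2K cl2P
  simp only [Option.elim]
  rw [e0, e1, e2, e3]
  rfl

/-- the sum of squares as a sum over tuples with one more entry -/
theorem cl2_expand {α : Type} [Fintype α] [DecidableEq α] (pr : α → ℕ) (m : ι)
    (Γ : (ι → ℕ) → ℕ → ℝ) (φ : ℕ → ℝ) (M : ℕ) :
    ∑ x ∈ (piDD ι pr).filter (fun x => x m = 1), φ (totN M x) *
      (∑ c ∈ DD pr, Γ (fun h => cellN M (Function.update x m c h))
        (totN M (Function.update x m c)) / (c : ℝ)) ^ 2 / ∏ h, (x h : ℝ) =
    ∑ y ∈ piDD (Option ι) pr, cl2K m Γ φ (cl2P m (fun o => ud M (y o))) *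
      (∏ o, (y o : ℝ))⁻¹ := by
  classical
  have h1 : ∀ x ∈ (piDD ι pr).filter (fun x => x m = 1), φ (totN M x) *
      (∑ c ∈ DD pr, Γ (fun h => cellN M (Function.update x m c h))
        (totN M (Function.update x m c)) / (c : ℝ)) ^ 2 / ∏ h, (x h : ℝ) =
      ∑ z ∈ DD pr ×ˢ DD pr, φ (totN M x) *
        (Γ (fun h => cellN M (Function.update x m z.1 h))
          (totN M (Function.update x m z.1)) / (z.1 : ℝ) *
        (Γ (fun h => cellN M (Function.update x m z.2 h))
          (totN M (Function.update x m z.2)) / (z.2 : ℝ))) / ∏ h, (x h : ℝ) := by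
    intro x _
    rw [pow_two, Finset.sum_mul_sum, ← Finset.sum_product', Finset.mul_sum, Finset.sum_div]
  rw [Finset.sum_congr rfl h1, ← Finset.sum_product']
  refine Finset.sum_nbij'
    (fun q => fun o : Option ι => o.elim q.2.2 (Function.update q.1 m q.2.1))
    (fun y => (Function.update (fun h => y (some h)) m 1, y (some m), y none)) ?_ ?_ ?_ ?_ ?_
  · rintro ⟨x, c, c'⟩ hq
    simp only [Finset.mem_product, Finset.mem_filter, piDD, Fintype.mem_piFinset] at hq ⊢
    obtain ⟨⟨hx, hxm⟩, hc, hc'⟩ := hq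
    intro o
    cases o with
    | none => exact hc'
    | some h =>
      show Function.update x m c h ∈ DD pr
      by_cases hh : h = m
      · subst hh
        rw [Function.update_self]
        exact hc
      · rw [Function.update_of_ne hh]
        exact hx h
  · intro y hy
    simp only [Finset.mem_product, Finset.mem_filter, piDD, Fintype.mem_piFinset] at hy ⊢
    refine ⟨⟨fun h => ?_, Function.update_self _ _ _⟩, hy _, hy _⟩
    by_cases hh : h = m
    · subst hh
      rw [Function.update_self]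
      exact cl2_one_mem pr
    · rw [Function.update_of_ne hh]
      exact hy _
  · rintro ⟨x, c, c'⟩ hq
    simp only [Finset.mem_product, Finset.mem_filter] at hq
    obtain ⟨⟨hx, hxm⟩, hc, hc'⟩ := hq
    simp only [Option.elim, Prod.mk.injEq]
    refine ⟨?_, Function.update_self _ _ _, trivial⟩
    funext h
    by_cases hh : h = m
    · subst hh
      rw [Function.update_self, hxm]
    · rw [Function.update_of_ne hh, Function.update_of_ne hh]
  · intro y _
    funext o
    cases o with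
    | none => rfl
    | some h =>
      show Function.update (Function.update (fun h => y (some h)) m 1) m (y (some m)) h =
        y (some h)
      by_cases hh : h = m
      · subst hh
        rw [Function.update_self]
      · rw [Function.update_of_ne hh, Function.update_of_ne hh]
  · rintro ⟨x, c, c'⟩ hq
    simp only [Finset.mem_product, Finset.mem_filter] at hq
    obtain ⟨⟨hx, hxm⟩, hc, hc'⟩ := hq
    rw [cl2_value m Γ φ M x hxm c c']
    have hp : ∏ o : Option ι, ((o.elim c' (Function.update x m c) : ℕ) : ℝ) =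
        (c' : ℝ) * ((c : ℝ) * ∏ h, (x h : ℝ)) := by
      rw [Fintype.prod_option]
      simp only [Option.elim]
      congr 1
      rw [← Finset.mul_prod_erase univ _ (mem_univ m), Function.update_self,
        ← Finset.mul_prod_erase univ (fun h => (x h : ℝ)) (mem_univ m), hxm, Nat.cast_one,
        one_mul]
      congr 1
      exact Finset.prod_congr rfl fun h hh => by
        rw [Function.update_of_ne (Finset.ne_of_mem_erase hh)]
    rw [hp]
    simp only [mul_inv, div_eq_mul_inv]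
    ring

end algebra

theorem hCl2 : StCl2 := by
  classical
  intro hMul hOne hSWs hDDw ι _ _ m Γ φ T hT hΓ ε hε
  set Cs : ℝ := ∑ p ∈ cl2I ι T, |cl2K m Γ φ p| with hCs
  have hCs0 : 0 ≤ Cs := Finset.sum_nonneg fun _ _ => abs_nonneg _
  set K : ℕ := Fintype.card ι with hK
  obtain ⟨w₁, hw₁⟩ := exists_nat_gt (Cs * ((K + 1 : ℕ) * 5 * 7 ^ K) / ε)
  refine ⟨w₁ + 1, fun w hw W hW => ?_⟩
  have hw1 : 1 ≤ w := by omega
  have hw0 : (1 : ℝ) ≤ w := by exact_mod_cast hw1
  obtain ⟨M₁, hM₁⟩ := hOne hSWs hDDw w hw1 W hW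
  refine ⟨M₁, fun M hM => ?_⟩
  have hone := hM₁ M hM
  set S : ℝ := SS W M with hS
  have hS0 : 0 ≤ S := cl2_SS_nonneg W M
  have hδ0 : 0 ≤ 5 / (w : ℝ) * S := by positivity
  have hcell : ∀ p ∈ cl2I ι T,
      |∑ y ∈ piDD (Option ι) (pw W M), (if (fun o => ud M (y o)) ∈ cl2C m p then
        (∏ o, (y o : ℝ))⁻¹ else 0) - S ^ (K + 1) * (volume (cl2C m p)).toReal| ≤
      (K + 1 : ℕ) * 5 * 7 ^ K / w * S ^ (K + 1) := by
    intro p hp
    unfold cl2I at hp
    simp only [Finset.mem_product, Fintype.mem_piFinset, Finset.mem_range] at hp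
    have h1 := hMul (Pw W M) (Option ι) (pw W M) (ud M) S (5 / (w : ℝ) * S) hS0 hδ0 hone
      (cl2C m p) (cl2_meas m p) (fun x hx h => cl2_sub m p T hT hp.1 hp.2.1 x hx h)
      (cl2_section m p)
    rw [Fintype.card_option, ← hK, Nat.add_sub_cancel] at h1
    refine h1.trans ?_
    have h2 : 2 * S + 5 / (w : ℝ) * S ≤ 7 * S := by
      have : 5 / (w : ℝ) ≤ 5 := div_le_self (by norm_num) hw0
      nlinarith
    have h3 : (2 * S + 5 / (w : ℝ) * S) ^ K ≤ (7 * S) ^ K :=
      pow_le_pow_left₀ (by positivity) h2 K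
    calc ((K + 1 : ℕ) : ℝ) * (5 / (w : ℝ) * S) * (2 * S + 5 / (w : ℝ) * S) ^ K
        ≤ ((K + 1 : ℕ) : ℝ) * (5 / (w : ℝ) * S) * (7 * S) ^ K :=
          mul_le_mul_of_nonneg_left h3 (by positivity)
      _ = (K + 1 : ℕ) * 5 * 7 ^ K / w * S ^ (K + 1) := by
          rw [mul_pow, pow_succ]
          ring
  have hmain : ∑ y ∈ piDD (Option ι) (pw W M), cl2K m Γ φ (cl2P m (fun o => ud M (y o))) *
      (∏ o, (y o : ℝ))⁻¹ = ∑ p ∈ cl2I ι T, cl2K m Γ φ p *
        ∑ y ∈ piDD (Option ι) (pw W M), (if (fun o => ud M (y o)) ∈ cl2C m p then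
          (∏ o, (y o : ℝ))⁻¹ else 0) := by
    have h1 : ∀ y ∈ piDD (Option ι) (pw W M), cl2K m Γ φ (cl2P m (fun o => ud M (y o))) *
        (∏ o, (y o : ℝ))⁻¹ = ∑ p ∈ cl2I ι T, cl2K m Γ φ p *
          (if (fun o => ud M (y o)) ∈ cl2C m p then (∏ o, (y o : ℝ))⁻¹ else 0) := by
      intro y _
      rw [← cl2_decomp m Γ φ T hΓ (fun o => ud M (y o)) (fun o => cl2_ud_nonneg M _),
        Finset.sum_mul]
      refine Finset.sum_congr rfl fun p _ => ?_
      split_ifs <;> ring
    rw [Finset.sum_congr rfl h1, Finset.sum_comm]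
    exact Finset.sum_congr rfl fun p _ => by rw [Finset.mul_sum]
  have hvol : ∑ i ∈ Fintype.piFinset (fun _ : ι => range T), ∑ i' ∈ range T, ∑ t0 ∈ range T,
      ∑ t1 ∈ range T, ∑ t2 ∈ range T, φ t0 * Γ i t1 * Γ (Function.update i m i') t2 *
        (volume (cs2 m i i' t0 t1 t2)).toReal =
      ∑ p ∈ cl2I ι T, cl2K m Γ φ p * (volume (cl2C m p)).toReal := by
    unfold cl2I
    simp only [Finset.sum_product]
    rfl
  have hexp := cl2_expand (pw W M) m Γ φ M
  rw [hvol]
  have hgoal : |∑ x ∈ (piDD ι (pw W M)).filter (fun x => x m = 1), φ (totN M x) *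
      (∑ c ∈ DD (pw W M), Γ (fun h => cellN M (Function.update x m c h))
        (totN M (Function.update x m c)) / (c : ℝ)) ^ 2 / ∏ h, (x h : ℝ) -
      S ^ (K + 1) * ∑ p ∈ cl2I ι T, cl2K m Γ φ p * (volume (cl2C m p)).toReal| ≤
      ε * S ^ (K + 1) := by
    rw [hexp, hmain, Finset.mul_sum, ← Finset.sum_sub_distrib]
    have h1 : ∀ p ∈ cl2I ι T, cl2K m Γ φ p *
        ∑ y ∈ piDD (Option ι) (pw W M), (if (fun o => ud M (y o)) ∈ cl2C m p then
          (∏ o, (y o : ℝ))⁻¹ else 0) - S ^ (K + 1) * (cl2K m Γ φ p *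
            (volume (cl2C m p)).toReal) =
        cl2K m Γ φ p * (∑ y ∈ piDD (Option ι) (pw W M),
          (if (fun o => ud M (y o)) ∈ cl2C m p then (∏ o, (y o : ℝ))⁻¹ else 0) -
            S ^ (K + 1) * (volume (cl2C m p)).toReal) := fun p _ => by ring
    rw [Finset.sum_congr rfl h1]
    refine (Finset.abs_sum_le_sum_abs _ _).trans ?_
    have h2 : ∀ p ∈ cl2I ι T, |cl2K m Γ φ p * (∑ y ∈ piDD (Option ι) (pw W M),
          (if (fun o => ud M (y o)) ∈ cl2C m p then (∏ o, (y o : ℝ))⁻¹ else 0) -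
            S ^ (K + 1) * (volume (cl2C m p)).toReal)| ≤
        |cl2K m Γ φ p| * ((K + 1 : ℕ) * 5 * 7 ^ K / w * S ^ (K + 1)) := by
      intro p hp
      rw [abs_mul]
      exact mul_le_mul_of_nonneg_left (hcell p hp) (abs_nonneg _)
    refine (Finset.sum_le_sum h2).trans ?_
    rw [← Finset.sum_mul, ← hCs]
    have h3 : Cs * ((K + 1 : ℕ) * 5 * 7 ^ K / w) ≤ ε := by
      rw [div_lt_iff₀ hε] at hw₁
      have h4 : (w₁ : ℝ) ≤ w := by
        have : w₁ ≤ w := by omega
        exact_mod_cast this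
      rw [← mul_div_assoc, div_le_iff₀ (by linarith)]
      nlinarith
    calc Cs * ((K + 1 : ℕ) * 5 * 7 ^ K / w * S ^ (K + 1))
        = Cs * ((K + 1 : ℕ) * 5 * 7 ^ K / w) * S ^ (K + 1) := by ring
      _ ≤ ε * S ^ (K + 1) := mul_le_mul_of_nonneg_right h3 (by positivity)
  convert hgoal using 3

end Pool.Agent.Helper27.BG
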